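import Mathlib
import Pool.Agent.Helper18.Core

/-!
Permutation Ramsey numbers: the maximum `M n` of `R π` over the permutations `π` of size `n`
satisfies `M n ≥ c n ^ 2` for an absolute constant `c > 0`. In particular `M n` is not `o(n ^ 2)`.
-/

open Finset

namespace Pool.Agent.Results.MP_78af93_co.QuadraticLower

open Pool.Agent.Helper18

/-- `f` is a copy of the permutation `π` of size `n` in the permutation `τ` of size `N`:
the indices `f 0 < f 1 < ... < f (n - 1)` carry entries of `τ` in the same relative order as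
the entries of `π`. -/
def IsCopy {n N : ℕ} (π : Equiv.Perm (Fin n)) (τ : Equiv.Perm (Fin N)) (f : Fin n → Fin N) :
    Prop :=
  StrictMono f ∧ ∀ a b : Fin n, τ (f a) < τ (f b) ↔ π a < π b

/-- every 2-colouring of the entries of `τ` contains a monochromatic copy of `π` -/
def Arrows {n N : ℕ} (τ : Equiv.Perm (Fin N)) (π : Equiv.Perm (Fin n)) : Prop :=
  ∀ χ : Fin N → Bool, ∃ f : Fin n → Fin N, IsCopy π τ f ∧ ∀ a b : Fin n, χ (f a) = χ (f b)

/-- the Ramsey number `R(π)`: the least `N` such that every 2-colouring of the entries of some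
permutation of size `N` contains a monochromatic copy of `π` -/
noncomputable def R {n : ℕ} (π : Equiv.Perm (Fin n)) : ℕ :=
  sInf {N : ℕ | ∃ τ : Equiv.Perm (Fin N), Arrows τ π}

/-- `M(n)`, the maximum of `R(π)` over all permutations `π` of size `n` -/
noncomputable def M (n : ℕ) : ℕ := Finset.univ.sup (fun π : Equiv.Perm (Fin n) => R π)

/-! ### The set defining `R` is nonempty -/

lemma fin_lex_lt {n : ℕ} (i i' j j' : Fin n) (h : i < i') :
    (finProdFinEquiv (i, j) : Fin (n * n)) < finProdFinEquiv (i', j') := by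
  rw [Fin.lt_def]
  simp only [finProdFinEquiv_apply_val]
  have h1 : (i : ℕ) + 1 ≤ i' := h
  have h2 : n * ((i : ℕ) + 1) ≤ n * i' := Nat.mul_le_mul_left _ h1
  have h3 : n * ((i : ℕ) + 1) = n * i + n := by ring
  have := j.isLt
  omega

lemma fin_lex_lt' {n : ℕ} (i j j' : Fin n) (h : j < j') :
    (finProdFinEquiv (i, j) : Fin (n * n)) < finProdFinEquiv (i, j') := by
  rw [Fin.lt_def]
  simp only [finProdFinEquiv_apply_val]
  have h1 : (j : ℕ) < j' := h
  omega

theorem exists_arrows {n : ℕ} (π : Equiv.Perm (Fin n)) :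
    ∃ τ : Equiv.Perm (Fin (n * n)), Arrows τ π := by
  refine ⟨(finProdFinEquiv.symm.trans (Equiv.prodCongr π π)).trans finProdFinEquiv, ?_⟩
  intro χ
  by_cases h : ∃ i : Fin n, ∀ j : Fin n, χ (finProdFinEquiv (i, j)) = true
  · obtain ⟨i, hi⟩ := h
    refine ⟨fun j => finProdFinEquiv (i, j), ⟨fun a b hab => fin_lex_lt' i a b hab, ?_⟩, ?_⟩
    · intro a b
      simp only [Equiv.trans_apply, Equiv.symm_apply_apply, Equiv.prodCongr_apply, Prod.map_apply]
      have hmono : StrictMono (fun j : Fin n => (finProdFinEquiv (π i, j) : Fin (n * n))) :=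
        fun a b hab => fin_lex_lt' (π i) a b hab
      exact hmono.lt_iff_lt
    · intro a b
      simp only [hi]
  · push Not at h
    choose g hg using h
    refine ⟨fun i => finProdFinEquiv (i, g i), ⟨fun a b hab => fin_lex_lt a b _ _ hab, ?_⟩, ?_⟩
    · intro a b
      simp only [Equiv.trans_apply, Equiv.symm_apply_apply, Equiv.prodCongr_apply, Prod.map_apply]
      constructor
      · intro hlt
        rcases lt_trichotomy (π a) (π b) with h1 | h1 | h1
        · exact h1
        · have hab := π.injective h1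
          subst hab
          exact absurd hlt (lt_irrefl _)
        · exact absurd (lt_trans hlt (fin_lex_lt _ _ _ _ h1)) (lt_irrefl _)
      · intro hlt
        exact fin_lex_lt _ _ _ _ hlt
    · intro a b
      have h1 := hg a
      have h2 := hg b
      simp only [ne_eq, Bool.not_eq_true] at h1 h2
      simp only [h1, h2]

/-! ### Bit reversal is not arrowed by small permutations -/

lemma div_lt_of_lt_mul' {q w s : ℕ} (h : q < w * s) : q / w < s :=
  Nat.div_lt_of_lt_mul h

lemma strip_card (N w : ℕ) (hw : 0 < w) (i : ℕ) :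
    (univ.filter (fun q : Fin N => (q : ℕ) / w = i)).card ≤ w := by
  have h1 : (univ.filter (fun q : Fin N => (q : ℕ) / w = i)).card ≤ (Ico (i * w) (i * w + w)).card := by
    refine card_le_card_of_injOn (fun q => (q : ℕ)) ?_ (fun a _ b _ h => Fin.ext h)
    intro q hq
    have hq := (mem_filter.1 hq).2
    simp only [coe_Ico, Set.mem_Ico]
    have h2 := Nat.div_add_mod (q : ℕ) w
    have h3 := Nat.mod_lt (q : ℕ) hw
    rw [hq, mul_comm] at h2
    omega
  simpa using h1

theorem not_arrows (L N : ℕ) (hL : 30 ≤ L) (hN : N ≤ 2 ^ (L - 30) * 2 ^ (L - 20))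
    (τ : Equiv.Perm (Fin N)) (π : Equiv.Perm (Fin (2 ^ L))) (hπ : ∀ p, π p = Core.rv L p) :
    ¬ Arrows τ π := by
  classical
  intro harr
  obtain ⟨w, hw⟩ : ∃ w, w = 2 ^ (L - 30) := ⟨_, rfl⟩
  obtain ⟨s, hs⟩ : ∃ s, s = 2 ^ (L - 20) := ⟨_, rfl⟩
  rw [← hw, ← hs] at hN
  have hwpos : 0 < w := by rw [hw]; positivity
  let col : Fin N → Fin s := fun q => ⟨(q : ℕ) / w, div_lt_of_lt_mul' (lt_of_lt_of_le q.isLt hN)⟩
  let y : Fin s → Fin s → ℕ := fun i j =>
    (univ.filter (fun q : Fin N => col q = i ∧ col (τ q) = j)).card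
  have hcolcard : ∀ i : Fin s, (univ.filter (fun q : Fin N => col q = i)).card ≤ w := by
    intro i
    have := strip_card N w hwpos i
    refine le_trans (card_le_card ?_) this
    intro q hq
    rw [mem_filter] at hq ⊢
    refine ⟨mem_univ _, ?_⟩
    have := congrArg Fin.val hq.2
    exact this
  have hrow : ∀ i, ∑ j, y i j ≤ 2 ^ (L - 30) := by
    intro i
    rw [← hw]
    refine le_trans (le_of_eq ?_) (hcolcard i)
    rw [card_eq_sum_card_fiberwise (s := univ.filter (fun q => col q = i)) (t := univ)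
      (f := fun q => col (τ q)) (fun _ _ => mem_coe.2 (mem_univ _))]
    refine sum_congr rfl (fun j _ => ?_)
    rw [filter_filter]
  have hcol : ∀ j, ∑ i, y i j ≤ 2 ^ (L - 30) := by
    intro j
    rw [← hw]
    have h1 : (univ.filter (fun q : Fin N => col (τ q) = j)).card ≤ w := by
      refine le_trans (le_of_eq ?_) (hcolcard j)
      refine card_bij (fun q _ => τ q) ?_ ?_ ?_
      · intro q hq
        rw [mem_filter] at hq ⊢
        exact ⟨mem_univ _, hq.2⟩
      · intro a _ b _ h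
        exact τ.injective h
      · intro q hq
        refine ⟨τ.symm q, ?_, by simp⟩
        rw [mem_filter] at hq ⊢
        refine ⟨mem_univ _, ?_⟩
        rw [Equiv.apply_symm_apply]
        exact hq.2
    refine le_trans (le_of_eq ?_) h1
    rw [card_eq_sum_card_fiberwise (s := univ.filter (fun q => col (τ q) = j)) (t := univ)
      (f := fun q => col q) (fun _ _ => mem_coe.2 (mem_univ _))]
    refine sum_congr rfl (fun i _ => ?_)
    rw [filter_filter]
    refine congrArg card (filter_congr (fun q _ => ?_))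
    exact and_comm
  obtain ⟨Rd, hRd⟩ := Core.core L s hL hs y hrow hcol
  obtain ⟨f, ⟨hf1, hf2⟩, hmono⟩ := harr (fun q => decide ((col q, col (τ q)) ∈ Rd))
  -- the column and row maps
  let c : Fin (2 ^ L) → Fin s := fun p => col (f p)
  let r : Fin (2 ^ L) → Fin s := fun v => col (τ (f (Core.rv L v)))
  have hcolmono : Monotone col := by
    intro a b hab
    rw [Fin.le_def]
    exact Nat.div_le_div_right hab
  have hc : Monotone c := fun a b hab => hcolmono (hf1.monotone hab)
  have hr : Monotone r := by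
    intro a b hab
    apply hcolmono
    rw [← not_lt, hf2, hπ, hπ, Core.rv_rv, Core.rv_rv, not_lt]
    exact hab
  have hrr : ∀ p, r (Core.rv L p) = col (τ (f p)) := by
    intro p
    show col (τ (f (Core.rv L (Core.rv L p)))) = _
    rw [Core.rv_rv]
  have hx : ∀ i j, Core.xc c r i j ≤ y i j := by
    intro i j
    unfold Core.xc
    refine card_le_card_of_injOn f ?_ (fun a _ b _ h => hf1.injective h)
    intro p hp
    obtain ⟨-, h1, h2⟩ := mem_filter.1 hp
    rw [hrr] at h2
    exact mem_filter.2 ⟨mem_univ _, h1, h2⟩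
  have hfin := hRd c r hc hr hx
  -- a contradiction
  have hpos : 0 < 2 ^ L := by positivity
  let p0 : Fin (2 ^ L) := ⟨0, hpos⟩
  by_cases h0 : (col (f p0), col (τ (f p0))) ∈ Rd
  · apply hfin.1
    intro q hq
    obtain ⟨p, -, rfl⟩ := mem_image.1 hq
    have := hmono p0 p
    rw [hrr]
    simp only [h0, decide_true] at this
    exact of_decide_eq_true this.symm
  · apply hfin.2
    rw [disjoint_left]
    intro q hq hqR
    obtain ⟨p, -, rfl⟩ := mem_image.1 hq
    have := hmono p0 p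
    rw [hrr] at hqR
    have h1 : (col (f p), col (τ (f p))) ∈ Rd := hqR
    simp only [h0, h1, decide_true, decide_false] at this
    exact absurd this (by simp)

/-! ### Extension to all sizes -/

/-- bit reversal of the first `2^L` positions, identity elsewhere -/
def extRev (L n : ℕ) (h : 2 ^ L ≤ n) (p : Fin n) : Fin n :=
  if (p : ℕ) < 2 ^ L then ⟨BitRev.rev L p, lt_of_lt_of_le (BitRev.rev_lt L p) h⟩ else p

lemma extRev_invol (L n : ℕ) (h : 2 ^ L ≤ n) : Function.Involutive (extRev L n h) := by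
  intro p
  unfold extRev
  by_cases hp : (p : ℕ) < 2 ^ L
  · simp only [hp, if_true]
    have h1 := BitRev.rev_lt L p
    simp only [h1, if_true]
    apply Fin.ext
    exact BitRev.rev_rev L p hp
  · simp only [hp, if_false]

lemma arrows_restrict (L n N : ℕ) (h : 2 ^ L ≤ n) (τ : Equiv.Perm (Fin N))
    (harr : Arrows τ (extRev_invol L n h).toPerm)
    (π : Equiv.Perm (Fin (2 ^ L))) (hπ : ∀ p, π p = Core.rv L p) : Arrows τ π := by
  intro χ
  obtain ⟨f, ⟨hf1, hf2⟩, hmono⟩ := harr χ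
  refine ⟨fun p => f (Fin.castLE h p), ⟨?_, ?_⟩, fun a b => hmono _ _⟩
  · intro a b hab
    exact hf1 hab
  · intro a b
    rw [hf2, hπ, hπ]
    simp only [Function.Involutive.coe_toPerm]
    unfold extRev Core.rv
    simp only [Fin.val_castLE, a.isLt, b.isLt, if_true, Fin.lt_def]

lemma rv_invol (L : ℕ) : Function.Involutive (Core.rv L) := Core.rv_rv L

lemma lower_bound_large (L n : ℕ) (hL : 30 ≤ L) (h : 2 ^ L ≤ n) :
    2 ^ (L - 30) * 2 ^ (L - 20) ≤ M n := by
  have h1 : R (extRev_invol L n h).toPerm ≤ M n :=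
    Finset.le_sup (f := fun π : Equiv.Perm (Fin n) => R π) (mem_univ _)
  refine le_trans ?_ h1
  have hne : {N : ℕ | ∃ τ : Equiv.Perm (Fin N), Arrows τ (extRev_invol L n h).toPerm}.Nonempty :=
    ⟨n * n, exists_arrows _⟩
  have hmem := Nat.sInf_mem hne
  obtain ⟨τ, hτ⟩ := hmem
  by_contra hcon
  push Not at hcon
  have h2 := arrows_restrict L n _ h τ hτ (rv_invol L).toPerm (fun p => rfl)
  exact not_arrows L _ hL hcon.le τ (rv_invol L).toPerm (fun p => rfl) h2

lemma one_le_M (n : ℕ) (hn : 0 < n) : 1 ≤ M n := by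
  have h1 : R (1 : Equiv.Perm (Fin n)) ≤ M n :=
    Finset.le_sup (f := fun π : Equiv.Perm (Fin n) => R π) (mem_univ _)
  refine le_trans ?_ h1
  have hne : {N : ℕ | ∃ τ : Equiv.Perm (Fin N), Arrows τ (1 : Equiv.Perm (Fin n))}.Nonempty :=
    ⟨n * n, exists_arrows _⟩
  have hmem := Nat.sInf_mem hne
  obtain ⟨τ, hτ⟩ := hmem
  by_contra hcon
  have h0 : sInf {N : ℕ | ∃ τ : Equiv.Perm (Fin N), Arrows τ (1 : Equiv.Perm (Fin n))} = 0 := by
    have : R (1 : Equiv.Perm (Fin n)) < 1 := not_le.1 hcon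
    unfold R at this
    omega
  obtain ⟨f, -, -⟩ := hτ (fun _ => true)
  have h3 := (f ⟨0, hn⟩).isLt
  have h4 := h3.trans_eq h0
  omega

theorem quadratic_lower : ∀ n : ℕ, (1 / 2 : ℝ) ^ 60 * (n : ℝ) ^ 2 ≤ (M n : ℝ) := by
  intro n
  rcases Nat.eq_zero_or_pos n with h0 | hpos
  · subst h0; simp
  by_cases hbig : 2 ^ 30 ≤ n
  · obtain ⟨L, hL⟩ : ∃ L, L = Nat.log 2 n := ⟨_, rfl⟩
    have h1 : 2 ^ L ≤ n := by rw [hL]; exact Nat.pow_log_le_self 2 (by omega)
    have h2 : n < 2 ^ (L + 1) := by rw [hL]; exact Nat.lt_pow_succ_log_self (by norm_num) n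
    have hL30 : 30 ≤ L := by
      rw [hL]
      exact Nat.le_log_of_pow_le (by norm_num) hbig
    have h3 := lower_bound_large L n hL30 h1
    have h4 : (2 : ℝ) ^ (L - 30) * 2 ^ (L - 20) ≤ M n := by exact_mod_cast h3
    have h5 : (n : ℝ) ≤ 2 ^ (L + 1) := by exact_mod_cast h2.le
    obtain ⟨m, rfl⟩ := Nat.exists_eq_add_of_le hL30
    have e1 : 30 + m - 30 = m := by omega
    have e2 : 30 + m - 20 = m + 10 := by omega
    rw [e1, e2] at h4
    calc (1 / 2 : ℝ) ^ 60 * (n : ℝ) ^ 2 ≤ (1 / 2 : ℝ) ^ 60 * (2 ^ (30 + m + 1)) ^ 2 := by gcongr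
      _ = 4 * (2 ^ m * 2 ^ m) := by
          have : (2 : ℝ) ^ (30 + m + 1) = 2 ^ 31 * 2 ^ m := by rw [← pow_add]; congr 1; ring
          rw [this]; ring
      _ ≤ 2 ^ m * 2 ^ (m + 10) := by
          rw [pow_add _ m 10]
          have : (0 : ℝ) < 2 ^ m * 2 ^ m := by positivity
          nlinarith
      _ ≤ M n := h4
  · have h1 := one_le_M n hpos
    have h2 : (n : ℝ) ≤ 2 ^ 30 := by
      have : n ≤ 2 ^ 30 := by omega
      exact_mod_cast this
    have h3 : (1 : ℝ) ≤ M n := by exact_mod_cast h1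
    calc (1 / 2 : ℝ) ^ 60 * (n : ℝ) ^ 2 ≤ (1 / 2 : ℝ) ^ 60 * (2 ^ 30) ^ 2 := by gcongr
      _ = 1 := by norm_num
      _ ≤ M n := h3

/-- `M n ≥ c n ^ 2` for an absolute constant `c > 0` and all `n`; hence `M n` is not `o(n ^ 2)`. -/
theorem result :
    (∃ c : ℝ, 0 < c ∧ ∀ n : ℕ, c * (n : ℝ) ^ 2 ≤ (M n : ℝ)) ∧
    ¬ ((fun n : ℕ => (M n : ℝ)) =o[Filter.atTop] (fun n : ℕ => (n : ℝ) ^ 2)) := by
  have hmain : ∃ c : ℝ, 0 < c ∧ ∀ n : ℕ, c * (n : ℝ) ^ 2 ≤ (M n : ℝ) :=
    ⟨(1 / 2) ^ 60, by positivity, quadratic_lower⟩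
  refine ⟨hmain, ?_⟩
  obtain ⟨c, hc, hM⟩ := hmain
  intro ho
  have h1 := ho.def (show (0 : ℝ) < c / 2 by positivity)
  rw [Filter.eventually_atTop] at h1
  obtain ⟨n0, hn0⟩ := h1
  have h2 := hn0 (n0 + 1) (by omega)
  have h3 := hM (n0 + 1)
  rw [Real.norm_of_nonneg (by positivity), Real.norm_of_nonneg (by positivity)] at h2
  have h4 : (0 : ℝ) < (((n0 + 1 : ℕ) : ℝ)) ^ 2 := by positivity
  nlinarith

end Pool.Agent.Results.MP_78af93_co.QuadraticLower
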